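import Pool.Agent.H599R2.QB.Thr
import Pool.Agent.H599R2.QB.QFml2

/-!
Formulas with quantified bits: NP, coNP, PP versus PSPACE for de Morgan formulas.
-/

namespace Pool.Agent.Results.MP_f471c9_lc.QuantifiedFormulas

open H599.QB
open Pool.Agent.H564R2.QF (Fml)

theorem result :
    (∀ (n m w : ℕ) (φ : Fml (GLeaf n m w)) (a : (Fin m → Bool) → ℝ) (θ : ℝ), 0 < n →
      (∀ x : Fin n → Bool, Odd (ones x) ↔
        θ < ∑ y, a y * (if φ.eval (fun g => g.1 y x) then (1 : ℝ) else 0)) →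
      (n : ℝ) ^ 2 ≤ 6 * 10 ^ 11 * (w : ℝ) ^ 2 * φ.size * (m + 1)) ∧
    (∀ n m : ℕ, m < n → ∃ φ : Fml (Fin n ⊕ Fin m), (m + 1) * φ.size ≤ 64 * n ^ 2 ∧
      ∀ x : Fin n → Bool,
        (Odd (ones x) → ∃! y : Fin m → Bool, φ.eval (Sum.elim x y) = true) ∧
        (¬ Odd (ones x) → ∀ y : Fin m → Bool, φ.eval (Sum.elim x y) = false)) ∧
    (∀ n : ℕ, 0 < n → ∃ (m : ℕ) (q : Fin m → Bool) (φ : Fml (Fin n ⊕ Fin m)),
      m ≤ 2 * Nat.clog 2 n ∧ φ.size ≤ 28 * n ∧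
      ∀ x : Fin n → Bool, Odd (ones x) ↔
        Quant m q (fun y => φ.eval (Sum.elim x y) = true)) :=
  ⟨fun _ _ _ φ a θ hn h => family_lower hn φ a θ h, fun n m hm => nondet n m hm,
    fun n hn => alternating n hn⟩

end Pool.Agent.Results.MP_f471c9_lc.QuantifiedFormulas
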